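import Pool.Agent.Y872.L.Defs

/-!
Project LT: compactness (`S_CPT`). The limit of Legendre symbols along a nonprincipal ultrafilter
is a completely multiplicative function with values `±1`.
-/

set_option autoImplicit false

namespace Pool.Agent.Y815.LT

open Pool.Agent.Y872.L Filter

/-- a Legendre symbol equal to one gives a quadratic residue -/
theorem qres_of_legendre {p : ℕ} (hp : p.Prime) (r : ℕ) (hr : ¬ p ∣ r)
    (h : @legendreSym p ⟨hp⟩ (r : ℤ) = 1) : QRes p r := by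
  haveI : Fact p.Prime := ⟨hp⟩
  refine ⟨hr, ?_⟩
  have h0 : ((r : ℤ) : ZMod p) ≠ 0 := by
    intro h0
    apply hr
    have : ((r : ℕ) : ZMod p) = 0 := by exact_mod_cast h0
    exact (ZMod.natCast_eq_zero_iff r p).1 this
  obtain ⟨y, hy⟩ := (legendreSym.eq_one_iff p h0).1 h
  refine ⟨y.val, ?_⟩
  rw [← ZMod.natCast_eq_natCast_iff]
  push_cast
  rw [ZMod.natCast_zmod_val, sq, ← hy]
  push_cast
  rfl

theorem cpt : S_CPT := by
  classical
  intro a b H
  have h1 : ∀ N : ℕ, ∃ p : ℕ, p.Prime ∧ N < p ∧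
      ∀ r : ℕ, 1 ≤ r → r ≤ N → ¬ (QRes p r ∧ QRes p (r + a) ∧ QRes p (r + b)) := by
    intro N
    obtain ⟨p, hp, hlt, h⟩ := H N N
    exact ⟨p, hp, hlt, h⟩
  choose P hP hN hr using h1
  let L : ℕ → ℕ → ℤ := fun N n => @legendreSym (P N) ⟨hP N⟩ (n : ℤ)
  have hcof : ∀ n : ℕ, ∀ᶠ N in (hyperfilter ℕ : Filter ℕ), n ≤ N := by
    intro n
    have h2 : ∀ᶠ N in (cofinite : Filter ℕ), n ≤ N := by
      rw [Nat.cofinite_eq_atTop]
      exact eventually_ge_atTop n
    exact (hyperfilter_le_cofinite : (hyperfilter ℕ : Filter ℕ) ≤ cofinite) h2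
  have hndvd : ∀ n N : ℕ, 0 < n → n ≤ N → ¬ P N ∣ n := by
    intro n N hn hnN hd
    have := Nat.le_of_dvd hn hd
    have := hN N
    omega
  have hval : ∀ n N : ℕ, 0 < n → n ≤ N → L N n = 1 ∨ L N n = -1 := by
    intro n N hn hnN
    haveI : Fact (P N).Prime := ⟨hP N⟩
    have h0 : ((n : ℤ) : ZMod (P N)) ≠ 0 := by
      intro h0
      apply hndvd n N hn hnN
      have : ((n : ℕ) : ZMod (P N)) = 0 := by exact_mod_cast h0
      exact (ZMod.natCast_eq_zero_iff n (P N)).1 this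
    exact legendreSym.eq_one_or_neg_one (P N) h0
  have hlim : ∀ n : ℕ, 0 < n → ∃ v : ℤ, (v = 1 ∨ v = -1) ∧
      ∀ᶠ N in (hyperfilter ℕ : Filter ℕ), L N n = v := by
    intro n hn
    have h3 : ∀ᶠ N in (hyperfilter ℕ : Filter ℕ), L N n = 1 ∨ L N n = -1 :=
      (hcof n).mono fun N hN' => hval n N hn hN'
    rcases Ultrafilter.eventually_or.1 h3 with h | h
    · exact ⟨1, Or.inl rfl, h⟩
    · exact ⟨-1, Or.inr rfl, h⟩
  choose! v hv hvlim using hlim
  have huniq : ∀ n : ℕ, 0 < n → ∀ c : ℤ, (∀ᶠ N in (hyperfilter ℕ : Filter ℕ), L N n = c) →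
      v n = c := by
    intro n hn c hc
    obtain ⟨N, h4, h5⟩ := ((hvlim n hn).and hc).exists
    exact h4.symm.trans h5
  let f : ℕ → ℤ := fun n => if n = 0 then 0 else v n
  have hf : ∀ n : ℕ, 0 < n → f n = v n := by
    intro n hn
    simp only [f]
    rw [if_neg (by omega)]
  have hf0 : f 0 = 0 := by simp [f]
  refine ⟨f, ⟨hf0, ?_, ?_, ?_⟩, ?_⟩
  · rw [hf 1 one_pos]
    apply huniq 1 one_pos
    refine Eventually.of_forall fun N => ?_
    haveI : Fact (P N).Prime := ⟨hP N⟩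
    show legendreSym (P N) ((1 : ℕ) : ℤ) = 1
    push_cast
    exact legendreSym.at_one (P N)
  · intro m n
    rcases Nat.eq_zero_or_pos m with rfl | hm
    · simp [hf0]
    rcases Nat.eq_zero_or_pos n with rfl | hn
    · simp [hf0]
    rw [hf _ (Nat.mul_pos hm hn), hf m hm, hf n hn]
    apply huniq _ (Nat.mul_pos hm hn)
    filter_upwards [hvlim m hm, hvlim n hn] with N h4 h5
    haveI : Fact (P N).Prime := ⟨hP N⟩
    rw [← h4, ← h5]
    show legendreSym (P N) ((m * n : ℕ) : ℤ) = _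
    push_cast
    exact legendreSym.mul (P N) m n
  · intro n hn
    rw [hf n hn]
    exact hv n hn
  · rintro n hn ⟨e1, e2, e3⟩
    rw [hf n hn] at e1
    rw [hf (n + a) (by omega)] at e2
    rw [hf (n + b) (by omega)] at e3
    obtain ⟨N, h4, h5, h6, h7, h8, h9⟩ := ((hvlim n hn).and ((hvlim (n + a) (by omega)).and
      ((hvlim (n + b) (by omega)).and ((hcof n).and ((hcof (n + a)).and (hcof (n + b))))))).exists
    refine hr N n hn h7 ⟨?_, ?_, ?_⟩
    · exact qres_of_legendre (hP N) n (hndvd n N hn h7) (h4.trans e1)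
    · exact qres_of_legendre (hP N) (n + a) (hndvd (n + a) N (by omega) h8) (h5.trans e2)
    · exact qres_of_legendre (hP N) (n + b) (hndvd (n + b) N (by omega) h9) (h6.trans e3)

end Pool.Agent.Y815.LT
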