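import Pool.Agent.Y815.LT.LocCheck

/-!
Project LT: the local problem is solvable at every prime (`S_LOC` from `S_PAT`).
-/

set_option autoImplicit false

namespace Pool.Agent.Y815.LT

open Pool.Agent.Y872.L

/-! ### General facts -/

theorem sig_one {p : ℕ} {σ : ℕ → ℤ} (h : Loc p σ) : σ 1 = 1 := by
  have h1 := h.mul 1 1 one_pos one_pos
  rcases h.val 1 one_pos with h2 | h2
  · exact h2
  · rw [one_mul, h2] at h1
    norm_num at h1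

theorem sig_pow {p : ℕ} {σ : ℕ → ℤ} (h : Loc p σ) {x : ℕ} (hx : 0 < x) (m : ℕ) :
    σ (x ^ m) = σ x ^ m := by
  induction m with
  | zero => rw [pow_zero, pow_zero]; exact sig_one h
  | succ m ih => rw [pow_succ, h.mul _ _ (pow_pos hx m) hx, ih, pow_succ]

theorem sig_sq {p : ℕ} {σ : ℕ → ℤ} (h : Loc p σ) {x : ℕ} (hx : 0 < x) : σ (x ^ 2) = 1 := by
  rw [sig_pow h hx]
  rcases h.val x hx with h1 | h1 <;> rw [h1] <;> norm_num

theorem pos_of_not_dvd {p x : ℕ} (h : ¬ p ∣ x) : 0 < x := by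
  rcases Nat.eq_zero_or_pos x with rfl | hx
  · exact absurd (dvd_zero p) h
  · exact hx

theorem not_dvd_of_modEq {p x y : ℕ} (h : x ≡ y [MOD p]) (hy : ¬ p ∣ y) : ¬ p ∣ x := by
  intro hd
  exact hy ((Nat.modEq_zero_iff_dvd).1 (h.symm.trans ((Nat.modEq_zero_iff_dvd).2 hd)))

/-! ### Odd primes -/

theorem sig_one_mod {p : ℕ} {σ : ℕ → ℤ} (h : Loc p σ) (hp : p.Prime) (h2 : p ≠ 2) {x : ℕ}
    (hx : x ≡ 1 [MOD p]) : σ x = 1 := by
  obtain ⟨K, hK⟩ := h.cont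
  have hnd : ¬ p ∣ x := not_dvd_of_modEq hx (fun hd => hp.one_lt.ne' (Nat.dvd_one.1 hd))
  have hx0 : 0 < x := pos_of_not_dvd hnd
  have h1 : ((p : ℤ) : ℤ) ∣ (x : ℤ) - 1 := by
    have := (Nat.modEq_iff_dvd.1 hx.symm)
    exact_mod_cast this
  have h3 := dvd_sub_pow_of_dvd_sub (R := ℤ) (p := p) h1 K
  rw [one_pow] at h3
  have h4 : x ^ p ^ K ≡ 1 [MOD p ^ (K + 1)] := by
    apply Nat.ModEq.symm
    rw [Nat.modEq_iff_dvd]
    push_cast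
    exact h3
  have h5 : x ^ p ^ K ≡ 1 [MOD p ^ K] := h4.of_dvd (pow_dvd_pow p (Nat.le_succ K))
  have h6 : σ (x ^ p ^ K) = σ 1 := hK _ _ (fun hd => hnd (hp.dvd_of_dvd_pow hd)) h5
  rw [sig_pow h hx0, sig_one h] at h6
  rcases h.val x hx0 with h7 | h7
  · exact h7
  · exfalso
    have hodd : Odd (p ^ K) := (hp.odd_of_ne_two h2).pow
    rw [h7, hodd.neg_one_pow] at h6
    norm_num at h6

theorem sig_congr {p : ℕ} {σ : ℕ → ℤ} (h : Loc p σ) (hp : p.Prime) (h2 : p ≠ 2) {x y : ℕ}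
    (hxy : x ≡ y [MOD p]) (hy : ¬ p ∣ y) : σ x = σ y := by
  have hx : ¬ p ∣ x := not_dvd_of_modEq hxy hy
  have hx0 := pos_of_not_dvd hx
  have hy0 := pos_of_not_dvd hy
  haveI : Fact p.Prime := ⟨hp⟩
  have hz : x ^ (p - 2) * x ≡ 1 [MOD p] := by
    rw [← pow_succ]
    have h3 : p - 2 + 1 = p - 1 := by have := hp.two_le; omega
    rw [h3, ← ZMod.natCast_eq_natCast_iff]
    push_cast
    apply ZMod.pow_card_sub_one_eq_one
    intro h0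
    exact hx ((ZMod.natCast_eq_zero_iff x p).1 h0)
  have hz0 : 0 < x ^ (p - 2) := pow_pos hx0 _
  have h4 := sig_one_mod h hp h2 hz
  have h5 := sig_one_mod h hp h2 ((hxy.symm.mul_left (x ^ (p - 2))).trans hz)
  rw [h.mul _ _ hz0 hx0] at h4
  rw [h.mul _ _ hz0 hy0] at h5
  rcases h.val _ hz0 with h6 | h6 <;> rw [h6] at h4 h5 <;> linarith

theorem sig_res {p : ℕ} {σ : ℕ → ℤ} (h : Loc p σ) (hp : p.Prime) (h2 : p ≠ 2) {m y : ℕ}
    (hy : QRes p y) (hmy : m ≡ y [MOD p]) : σ m = 1 ∧ ¬ p ∣ m := by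
  obtain ⟨hny, x, hx⟩ := hy
  refine ⟨?_, not_dvd_of_modEq hmy hny⟩
  have hx0 : 0 < x := by
    rcases Nat.eq_zero_or_pos x with rfl | hx0
    · exfalso
      apply hny
      exact (Nat.modEq_zero_iff_dvd).1 (by simpa using hx.symm)
    · exact hx0
  rw [sig_congr h hp h2 hmy hny, ← sig_congr h hp h2 hx hny]
  exact sig_sq h hx0

theorem sig_psq {p : ℕ} {σ : ℕ → ℤ} (h : Loc p σ) (hp : p.Prime) (h2 : p ≠ 2) {m : ℕ}
    (hm : m ≡ p ^ 2 [MOD p ^ 3]) : σ m = 1 ∧ ¬ p ^ 3 ∣ m := by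
  have hlt : p ^ 2 < p ^ 3 := Nat.pow_lt_pow_right hp.one_lt (by norm_num)
  have h1 : m % p ^ 3 = p ^ 2 := by
    have h1' : m % p ^ 3 = p ^ 2 % p ^ 3 := hm
    rw [h1', Nat.mod_eq_of_lt hlt]
  have h3 : m = p ^ 2 * (p * (m / p ^ 3) + 1) := by
    have h4 := Nat.div_add_mod m (p ^ 3)
    rw [h1] at h4
    nlinarith [h4]
  refine ⟨?_, ?_⟩
  · rw [h3, h.mul _ _ (pow_pos hp.pos 2) (Nat.succ_pos _), sig_sq h hp.pos, one_mul]
    apply sig_one_mod h hp h2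
    have : p * (m / p ^ 3) + 1 ≡ 0 + 1 [MOD p] :=
      Nat.ModEq.add_right 1 ((Nat.modEq_zero_iff_dvd).2 (dvd_mul_right p _))
    simpa using this
  · intro hd
    have h5 := Nat.mod_eq_zero_of_dvd hd
    rw [h1] at h5
    exact absurd h5 (pow_pos hp.pos 2).ne'

/-- one shift is divisible by `p` -/
theorem one_shift {p : ℕ} (hp : p.Prime) {x s : ℕ} (hs : p ∣ x + s) :
    ∃ r : ℕ, ∀ n : ℕ, n ≡ r [MOD p ^ 3] → n + s ≡ p ^ 2 [MOD p ^ 3] ∧ n ≡ x [MOD p] := by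
  have hps : s ≤ p ^ 3 * s := Nat.le_mul_of_pos_left s (pow_pos hp.pos 3)
  refine ⟨p ^ 2 + (p ^ 3 * s - s), fun n hn => ?_⟩
  have h1 : n + s ≡ p ^ 2 [MOD p ^ 3] := by
    have h2 := hn.add_right s
    have h3 : p ^ 2 + (p ^ 3 * s - s) + s = p ^ 2 + p ^ 3 * s := by omega
    rw [h3] at h2
    refine h2.trans ?_
    have h4 : p ^ 2 + p ^ 3 * s ≡ p ^ 2 + 0 [MOD p ^ 3] :=
      Nat.ModEq.add_left _ ((Nat.modEq_zero_iff_dvd).2 (dvd_mul_right _ s))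
    simpa using h4
  refine ⟨h1, ?_⟩
  have h5 : n + s ≡ p ^ 2 [MOD p] := h1.of_dvd (dvd_pow_self p (by norm_num))
  have h6 : n + s ≡ 0 [MOD p] :=
    h5.trans ((Nat.modEq_zero_iff_dvd).2 (dvd_pow_self p (by norm_num)))
  have h7 : n + s ≡ x + s [MOD p] := h6.trans ((Nat.modEq_zero_iff_dvd).2 hs).symm
  exact Nat.ModEq.add_right_cancel' s h7

theorem loc_five (hpat : S_PAT) {p : ℕ} (hp : p.Prime) (h5 : 5 ≤ p) {a b : ℕ}
    (hexc : ¬ Exc a b) {σ : ℕ → ℤ} (h : Loc p σ) : ∃ r L : ℕ, ∀ n : ℕ, 0 < n →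
    n ≡ r [MOD p ^ L] → (σ n = 1 ∧ σ (n + a) = 1 ∧ σ (n + b) = 1) ∧
    ¬ p ^ L ∣ n ∧ ¬ p ^ L ∣ n + a ∧ ¬ p ^ L ∣ n + b := by
  have h2 : p ≠ 2 := by omega
  obtain ⟨x, hx0, hxa, hxb, e1, e2, e3⟩ := hpat p hp h5 a b hexc
  have hcube : ∀ m : ℕ, ¬ p ∣ m → ¬ p ^ 3 ∣ m := fun m hm hd =>
    hm (dvd_trans (dvd_pow_self p (by norm_num)) hd)
  by_cases d0 : p ∣ x
  · have qa : QRes p (x + a) := hxa.resolve_left fun hd => e1 ⟨d0, hd⟩
    have qb : QRes p (x + b) := hxb.resolve_left fun hd => e2 ⟨d0, hd⟩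
    obtain ⟨r, hr⟩ := one_shift hp (x := x) (s := 0) (by simpa using d0)
    refine ⟨r, 3, fun n hn hnr => ?_⟩
    obtain ⟨h3, h4⟩ := hr n hnr
    obtain ⟨u1, u2⟩ := sig_psq h hp h2 h3
    obtain ⟨v1, v2⟩ := sig_res h hp h2 qa (h4.add_right a)
    obtain ⟨w1, w2⟩ := sig_res h hp h2 qb (h4.add_right b)
    exact ⟨⟨u1, v1, w1⟩, u2, hcube _ v2, hcube _ w2⟩
  by_cases da : p ∣ x + a
  · have q0 : QRes p x := hx0.resolve_left d0
    have qb : QRes p (x + b) := hxb.resolve_left fun hd => e3 ⟨da, hd⟩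
    obtain ⟨r, hr⟩ := one_shift hp (x := x) (s := a) da
    refine ⟨r, 3, fun n hn hnr => ?_⟩
    obtain ⟨h3, h4⟩ := hr n hnr
    obtain ⟨u1, u2⟩ := sig_psq h hp h2 h3
    obtain ⟨v1, v2⟩ := sig_res h hp h2 q0 h4
    obtain ⟨w1, w2⟩ := sig_res h hp h2 qb (h4.add_right b)
    exact ⟨⟨v1, u1, w1⟩, hcube _ v2, u2, hcube _ w2⟩
  by_cases db : p ∣ x + b
  · have q0 : QRes p x := hx0.resolve_left d0
    have qa : QRes p (x + a) := hxa.resolve_left da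
    obtain ⟨r, hr⟩ := one_shift hp (x := x) (s := b) db
    refine ⟨r, 3, fun n hn hnr => ?_⟩
    obtain ⟨h3, h4⟩ := hr n hnr
    obtain ⟨u1, u2⟩ := sig_psq h hp h2 h3
    obtain ⟨v1, v2⟩ := sig_res h hp h2 q0 h4
    obtain ⟨w1, w2⟩ := sig_res h hp h2 qa (h4.add_right a)
    exact ⟨⟨v1, w1, u1⟩, hcube _ v2, hcube _ w2, u2⟩
  · have q0 : QRes p x := hx0.resolve_left d0
    have qa : QRes p (x + a) := hxa.resolve_left da
    have qb : QRes p (x + b) := hxb.resolve_left db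
    refine ⟨x, 1, fun n hn hnr => ?_⟩
    rw [pow_one] at hnr ⊢
    obtain ⟨u1, u2⟩ := sig_res h hp h2 q0 hnr
    obtain ⟨v1, v2⟩ := sig_res h hp h2 qa (hnr.add_right a)
    obtain ⟨w1, w2⟩ := sig_res h hp h2 qb (hnr.add_right b)
    exact ⟨⟨u1, v1, w1⟩, u2, v2, w2⟩

/-! ### From the finite check to the local problem -/

theorem solv_loc {q L : ℕ} {good : ℕ → Bool} {ex : ℕ → ℕ → Bool} {σ : ℕ → ℤ} (hq : 0 < q ^ L)
    (hs : Solv good ex (q ^ L)) (a b : ℕ) (hex : ex (a % q ^ L) (b % q ^ L) = false)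
    (hgood : ∀ x n : ℕ, good x = true → n ≡ x [MOD q ^ L] → σ n = 1 ∧ ¬ q ^ L ∣ n) :
    ∃ r L : ℕ, ∀ n : ℕ, 0 < n →
    n ≡ r [MOD q ^ L] → (σ n = 1 ∧ σ (n + a) = 1 ∧ σ (n + b) = 1) ∧
    ¬ q ^ L ∣ n ∧ ¬ q ^ L ∣ n + a ∧ ¬ q ^ L ∣ n + b := by
  obtain ⟨r, hr, g0, ga, gb⟩ := hs (a % q ^ L) (Nat.mod_lt _ hq) (b % q ^ L) (Nat.mod_lt _ hq) hex
  refine ⟨r, L, fun n _ hnr => ?_⟩
  obtain ⟨u1, u2⟩ := hgood r n g0 hnr
  obtain ⟨v1, v2⟩ := hgood _ (n + a) ga (hnr.add (Nat.mod_modEq a (q ^ L)).symm)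
  obtain ⟨w1, w2⟩ := hgood _ (n + b) gb (hnr.add (Nat.mod_modEq b (q ^ L)).symm)
  exact ⟨⟨u1, v1, w1⟩, u2, v2, w2⟩

/-- `x = q ^ v * c` modulo `q ^ (v + e)`, `v + e ≤ L`, gives `n = q ^ v * m`, `m = c` modulo `q ^ e` -/
theorem split_of_mod {q v e L c x n : ℕ} (hq : 1 < q) (hL : v + e ≤ L) (hc : c < q ^ e)
    (hx : x % q ^ (v + e) = q ^ v * c) (hn : n ≡ x [MOD q ^ L]) :
    ∃ m : ℕ, n = q ^ v * m ∧ m ≡ c [MOD q ^ e] := by
  have h1 : n ≡ x [MOD q ^ (v + e)] := hn.of_dvd (pow_dvd_pow q hL)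
  have h2 : n % q ^ (v + e) = q ^ v * c := by
    have h1' : n % q ^ (v + e) = x % q ^ (v + e) := h1
    rw [h1', hx]
  refine ⟨q ^ e * (n / q ^ (v + e)) + c, ?_, ?_⟩
  · have h4 := Nat.div_add_mod n (q ^ (v + e))
    rw [h2] at h4
    calc n = q ^ (v + e) * (n / q ^ (v + e)) + q ^ v * c := h4.symm
      _ = _ := by rw [pow_add]; ring
  · have : q ^ e * (n / q ^ (v + e)) + c ≡ 0 + c [MOD q ^ e] :=
      Nat.ModEq.add_right c ((Nat.modEq_zero_iff_dvd).2 (dvd_mul_right _ _))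
    simpa using this

/-! ### The prime `3` -/

/-- the sign as an integer -/
def sgn (t : Bool) : ℤ := if t then -1 else 1

theorem sgn_of {z : ℤ} (hz : z = 1 ∨ z = -1) : ∃ t : Bool, z = sgn t := by
  rcases hz with h | h
  · exact ⟨false, by simp [sgn, h]⟩
  · exact ⟨true, by simp [sgn, h]⟩

theorem sgn_pow (t : Bool) (v : ℕ) : sgn t ^ v = sgn (and t (Nat.beq (v % 2) 1)) := by
  cases t
  · simp [sgn]
  · rcases Nat.mod_two_eq_zero_or_one v with h | h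
    · have : Even v := Nat.even_iff.2 h
      simp [sgn, h, this.neg_one_pow]
    · have : Odd v := Nat.odd_iff.2 h
      simp [sgn, h, this.neg_one_pow]

theorem sgn_mul (s t : Bool) : sgn s * sgn t = sgn (xor s t) := by
  cases s <;> cases t <;> simp [sgn]

theorem good3_spec {σ : ℕ → ℤ} (h : Loc 3 σ) {t3 t2 : Bool} (h3 : σ 3 = sgn t3)
    (h2 : σ 2 = sgn t2) {x n : ℕ} (hx : good3 t3 t2 x = true) (hn : n ≡ x [MOD 3 ^ 3]) :
    σ n = 1 ∧ ¬ 3 ^ 3 ∣ n := by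
  unfold good3 at hx
  rw [List.any_eq_true] at hx
  obtain ⟨v, hv, hx⟩ := hx
  rw [List.mem_range] at hv
  rw [List.any_eq_true] at hx
  obtain ⟨c, hc, hx⟩ := hx
  rw [Bool.and_eq_true] at hx
  obtain ⟨hx1, hx2⟩ := hx
  have hx1' : x % 3 ^ (v + 1) = 3 ^ v * c := Nat.eq_of_beq_eq_true hx1
  have hc' : c = 1 ∨ c = 2 := by simpa using hc
  have hc3 : c < 3 ^ 1 := by rcases hc' with rfl | rfl <;> norm_num
  obtain ⟨m, hm, hmc⟩ := split_of_mod (q := 3) (by norm_num) (by omega) hc3 hx1' hn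
  rw [pow_one] at hmc
  have hcnd : ¬ 3 ∣ c := by rcases hc' with rfl | rfl <;> norm_num
  have hmnd : ¬ 3 ∣ m := not_dvd_of_modEq hmc hcnd
  have hm0 := pos_of_not_dvd hmnd
  have hσc : σ c = sgn (sg3 t2 c) := by
    rcases hc' with rfl | rfl
    · rw [sig_one h]; simp [sg3, sgn]
    · rw [h2]; simp [sg3]
  refine ⟨?_, ?_⟩
  · rw [hm, h.mul _ _ (by positivity) hm0, sig_pow h (by norm_num), h3,
      sig_congr h Nat.prime_three (by norm_num) hmc hcnd, hσc, sgn_pow, sgn_mul]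
    rw [Bool.not_eq_true'] at hx2
    rw [hx2]
    simp [sgn]
  · intro hd
    rw [hm] at hd
    have h5 : 3 ^ (v + 1) ∣ 3 ^ v * m := dvd_trans (pow_dvd_pow 3 (by omega)) hd
    rw [pow_succ] at h5
    exact hmnd (Nat.dvd_of_mul_dvd_mul_left (by positivity) h5)

theorem loc_three {a b : ℕ} (hexc : ¬ Exc a b) {σ : ℕ → ℤ} (h : Loc 3 σ) :
    ∃ r L : ℕ, ∀ n : ℕ, 0 < n →
    n ≡ r [MOD 3 ^ L] → (σ n = 1 ∧ σ (n + a) = 1 ∧ σ (n + b) = 1) ∧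
    ¬ 3 ^ L ∣ n ∧ ¬ 3 ^ L ∣ n + a ∧ ¬ 3 ^ L ∣ n + b := by
  obtain ⟨t3, h3⟩ := sgn_of (h.val 3 (by norm_num))
  obtain ⟨t2, h2⟩ := sgn_of (h.val 2 (by norm_num))
  have hs : Solv (good3 t3 t2) ex3 (3 ^ 3) := by
    have h27 : (3 : ℕ) ^ 3 = 27 := by norm_num
    rw [h27]
    cases t3 <;> cases t2
    · exact three_00
    · exact three_01
    · exact three_10
    · exact three_11
  refine solv_loc (by norm_num) hs a b ?_ fun x n hx hn => good3_spec h h3 h2 hx hn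
  have h1 : ¬ ((a % 3 = 1 ∧ b % 3 = 2) ∨ (a % 3 = 2 ∧ b % 3 = 1)) := by
    intro hc
    apply hexc
    left
    rcases hc with ⟨e1, e2⟩ | ⟨e1, e2⟩ <;> simp [e1, e2]
  have ea : a % 3 ^ 3 % 3 = a % 3 := by omega
  have eb : b % 3 ^ 3 % 3 = b % 3 := by omega
  unfold ex3
  rw [ea, eb]
  rw [Bool.eq_false_iff]
  intro hc
  apply h1
  rw [Bool.or_eq_true, Bool.and_eq_true, Bool.and_eq_true] at hc
  rcases hc with ⟨e1, e2⟩ | ⟨e1, e2⟩
  · exact Or.inl ⟨Nat.eq_of_beq_eq_true e1, Nat.eq_of_beq_eq_true e2⟩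
  · exact Or.inr ⟨Nat.eq_of_beq_eq_true e1, Nat.eq_of_beq_eq_true e2⟩

/-! ### The prime `2` -/

theorem sq_mod_two_pow (x : ℕ) (hx : x % 8 = 1) : ∀ K : ℕ, ∃ y : ℕ, y % 2 = 1 ∧
    y ^ 2 ≡ x [MOD 2 ^ (K + 3)] := by
  intro K
  induction K with
  | zero =>
    refine ⟨1, rfl, ?_⟩
    show 1 ^ 2 % 2 ^ (0 + 3) = x % 2 ^ (0 + 3)
    norm_num [hx]
  | succ K ih =>
    obtain ⟨y, hy, hyx⟩ := ih
    by_cases hc : y ^ 2 ≡ x [MOD 2 ^ (K + 1 + 3)]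
    · exact ⟨y, hy, hc⟩
    · refine ⟨y + 2 ^ (K + 2), ?_, ?_⟩
      · have : 2 ^ (K + 2) % 2 = 0 := by
          rw [pow_succ]; omega
        omega
      · -- integers
        rw [Nat.ModEq.comm, Nat.modEq_iff_dvd] at hyx hc ⊢
        obtain ⟨k, hk⟩ := hyx
        have hkodd : ¬ (2 : ℤ) ∣ k := by
          rintro ⟨l, rfl⟩
          apply hc
          refine ⟨l, ?_⟩
          rw [hk]
          push_cast
          ring
        obtain ⟨y', hy'⟩ : ∃ y' : ℤ, (y : ℤ) = 2 * y' + 1 := ⟨(y : ℤ) / 2, by omega⟩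
        obtain ⟨k', hk'⟩ : ∃ k' : ℤ, k = 2 * k' + 1 := ⟨k / 2, by omega⟩
        refine ⟨k' + y' + 1 + 2 ^ K, ?_⟩
        push_cast at hk ⊢
        have e1 : ((y : ℤ) + 2 ^ (K + 2)) ^ 2 - x
            = ((y : ℤ) ^ 2 - x) + 2 ^ (K + 3) * y + 2 ^ (K + 4) * 2 ^ K := by ring
        rw [e1, hk, hk', hy']
        ring

theorem sig2_one {σ : ℕ → ℤ} (h : Loc 2 σ) {x : ℕ} (hx : x % 8 = 1) : σ x = 1 := by
  obtain ⟨K, hK⟩ := h.cont
  obtain ⟨y, hy, hyx⟩ := sq_mod_two_pow x hx K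
  have h1 : y ^ 2 ≡ x [MOD 2 ^ K] := hyx.of_dvd (pow_dvd_pow 2 (by omega))
  have hyo : ¬ 2 ∣ y := by omega
  have h2 : σ (y ^ 2) = σ x := hK _ _ (fun hd => hyo (Nat.prime_two.dvd_of_dvd_pow hd)) h1
  rw [← h2]
  exact sig_sq h (pos_of_not_dvd hyo)

theorem sig2_congr {σ : ℕ → ℤ} (h : Loc 2 σ) {x c : ℕ} (hxc : x ≡ c [MOD 8]) (hc : c % 2 = 1) :
    σ x = σ c := by
  have hc0 : 0 < c := by omega
  have hx1 : x % 8 = c % 8 := hxc
  have hx0 : 0 < x := by omega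
  have h1 : (x * c) % 8 = 1 := by
    rw [Nat.mul_mod, hx1]
    have : c % 8 = 1 ∨ c % 8 = 3 ∨ c % 8 = 5 ∨ c % 8 = 7 := by omega
    rcases this with e | e | e | e <;> rw [e]
  have h2 : (c * c) % 8 = 1 := by
    rw [Nat.mul_mod]
    have : c % 8 = 1 ∨ c % 8 = 3 ∨ c % 8 = 5 ∨ c % 8 = 7 := by omega
    rcases this with e | e | e | e <;> rw [e]
  have h3 := sig2_one h h1
  have h4 := sig2_one h h2
  rw [h.mul _ _ hx0 hc0] at h3
  rw [h.mul _ _ hc0 hc0] at h4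
  rcases h.val c hc0 with h5 | h5 <;> rw [h5] at h3 ⊢ <;> linarith

theorem good2_spec {σ : ℕ → ℤ} (h : Loc 2 σ) {t2 t3 t5 : Bool} (h2 : σ 2 = sgn t2)
    (h3 : σ 3 = sgn t3) (h5 : σ 5 = sgn t5) {x n : ℕ} (hx : good2 t2 t3 t5 x = true)
    (hn : n ≡ x [MOD 2 ^ 8]) : σ n = 1 ∧ ¬ 2 ^ 8 ∣ n := by
  unfold good2 at hx
  rw [List.any_eq_true] at hx
  obtain ⟨v, hv, hx⟩ := hx
  rw [List.mem_range] at hv
  rw [List.any_eq_true] at hx
  obtain ⟨c, hc, hx⟩ := hx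
  rw [Bool.and_eq_true] at hx
  obtain ⟨hx1, hx2⟩ := hx
  have hx1' : x % 2 ^ (v + 3) = 2 ^ v * c := Nat.eq_of_beq_eq_true hx1
  have hc' : c = 1 ∨ c = 3 ∨ c = 5 ∨ c = 7 := by simpa using hc
  have hc8 : c < 2 ^ 3 := by rcases hc' with rfl | rfl | rfl | rfl <;> norm_num
  obtain ⟨m, hm, hmc⟩ := split_of_mod (q := 2) (by norm_num) (by omega) hc8 hx1' hn
  have hmc8 : m ≡ c [MOD 8] := by simpa using hmc
  have hcodd : c % 2 = 1 := by rcases hc' with rfl | rfl | rfl | rfl <;> norm_num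
  have hm8 : m % 8 = c % 8 := hmc8
  have hm0 : 0 < m := by omega
  have h7 : σ 7 = sgn (xor t3 t5) := by
    rw [← sgn_mul, ← h3, ← h5, ← h.mul 3 5 (by norm_num) (by norm_num)]
    exact (sig2_congr h (x := 3 * 5) (c := 7) (by decide) (by norm_num)).symm
  have hσc : σ c = sgn (sg8 t3 t5 c) := by
    rcases hc' with rfl | rfl | rfl | rfl
    · rw [sig_one h]; simp [sg8, sgn]
    · rw [h3]; simp [sg8]
    · rw [h5]; simp [sg8]
    · rw [h7]; simp [sg8]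
  refine ⟨?_, ?_⟩
  · rw [hm, h.mul _ _ (by positivity) hm0, sig_pow h (by norm_num), h2,
      sig2_congr h hmc8 hcodd, hσc, sgn_pow, sgn_mul]
    rw [Bool.not_eq_true'] at hx2
    rw [hx2]
    simp [sgn]
  · intro hd
    rw [hm] at hd
    have h6 : 2 ^ (v + 1) ∣ 2 ^ v * m := dvd_trans (pow_dvd_pow 2 (by omega)) hd
    rw [pow_succ] at h6
    have h8 := Nat.dvd_of_mul_dvd_mul_left (by positivity) h6
    omega

theorem loc_two (a b : ℕ) {σ : ℕ → ℤ} (h : Loc 2 σ) :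
    ∃ r L : ℕ, ∀ n : ℕ, 0 < n →
    n ≡ r [MOD 2 ^ L] → (σ n = 1 ∧ σ (n + a) = 1 ∧ σ (n + b) = 1) ∧
    ¬ 2 ^ L ∣ n ∧ ¬ 2 ^ L ∣ n + a ∧ ¬ 2 ^ L ∣ n + b := by
  obtain ⟨t2, h2⟩ := sgn_of (h.val 2 (by norm_num))
  obtain ⟨t3, h3⟩ := sgn_of (h.val 3 (by norm_num))
  obtain ⟨t5, h5⟩ := sgn_of (h.val 5 (by norm_num))
  have hs : Solv (good2 t2 t3 t5) noEx (2 ^ 8) := by
    have h256 : (2 : ℕ) ^ 8 = 256 := by norm_num
    rw [h256]
    cases t2 <;> cases t3 <;> cases t5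
    · exact two_000
    · exact two_001
    · exact two_010
    · exact two_011
    · exact two_100
    · exact two_101
    · exact two_110
    · exact two_111
  exact solv_loc (by norm_num) hs a b rfl fun x n hx hn => good2_spec h h2 h3 h5 hx hn

/-- LOC -/
theorem loc : S_PAT → S_LOC := by
  intro hpat p hp a b _ _ hexc σ h
  rcases Nat.lt_or_ge p 5 with h5 | h5
  · have h2 := hp.two_le
    interval_cases p
    · exact loc_two a b h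
    · exact loc_three hexc h
    · exact absurd hp (by norm_num)
  · exact loc_five hpat hp h5 hexc h

end Pool.Agent.Y815.LT
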