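import Pool.Agent.Y872.L.Defs

/-!
Project LT: the finite checks for the local problem at `2` and `3`.
-/

set_option autoImplicit false

namespace Pool.Agent.Y815.LT

/-- the inner loop of the check -/
def inner (ex : ℕ → ℕ → Bool) (GG H a M : ℕ) : Bool :=
  Nat.rec (motive := fun _ => Bool) true
    (fun b ih => and (or (not (Nat.beq (Nat.land H (Nat.shiftRight GG b)) 0)) (ex a b)) ih) M

/-- the outer loop of the check -/
def outer (ex : ℕ → ℕ → Bool) (GG G M N : ℕ) : Bool :=
  Nat.rec (motive := fun _ => Bool) true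
    (fun a ih => and (inner ex GG (Nat.land G (Nat.shiftRight GG a)) a M) ih) N

theorem inner_spec (ex : ℕ → ℕ → Bool) (GG H a : ℕ) : ∀ M : ℕ, inner ex GG H a M = true →
    ∀ b, b < M → ex a b = false → H &&& (GG >>> b) ≠ 0 := by
  intro M
  induction M with
  | zero => intro _ b hb; omega
  | succ M ih =>
    intro h b hb hex
    have h' : (and (or (not (Nat.beq (Nat.land H (Nat.shiftRight GG M)) 0)) (ex a M))
      (inner ex GG H a M)) = true := h
    rw [Bool.and_eq_true] at h'
    rcases Nat.lt_succ_iff_lt_or_eq.1 hb with hb' | rfl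
    · exact ih h'.2 b hb' hex
    · intro h0
      have h1 := h'.1
      rw [hex, Bool.or_false] at h1
      have h2 : Nat.land H (Nat.shiftRight GG b) = 0 := h0
      rw [h2] at h1
      exact absurd h1 (by decide)

theorem outer_spec (ex : ℕ → ℕ → Bool) (GG G M : ℕ) : ∀ N : ℕ, outer ex GG G M N = true →
    ∀ a, a < N → ∀ b, b < M → ex a b = false → (G &&& (GG >>> a)) &&& (GG >>> b) ≠ 0 := by
  intro N
  induction N with
  | zero => intro _ a ha; omega
  | succ N ih =>
    intro h a ha b hb hex
    have h' : (and (inner ex GG (Nat.land G (Nat.shiftRight GG N)) N M)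
      (outer ex GG G M N)) = true := h
    rw [Bool.and_eq_true] at h'
    rcases Nat.lt_succ_iff_lt_or_eq.1 ha with ha' | rfl
    · exact ih h'.2 a ha' b hb hex
    · exact inner_spec ex GG _ a M h'.1 b hb hex

/-- solvability for all residue classes -/
def Solv (good : ℕ → Bool) (ex : ℕ → ℕ → Bool) (M : ℕ) : Prop :=
  ∀ a, a < M → ∀ b, b < M → ex a b = false →
    ∃ r, r < M ∧ good r = true ∧ good (r + a) = true ∧ good (r + b) = true

theorem mask_lemma (good : ℕ → Bool) (ex : ℕ → ℕ → Bool) (GG G M : ℕ) (hG : G < 2 ^ M)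
    (hg : ∀ j, j < M → G.testBit j = true → good j = true)
    (hgg : ∀ j, j < 2 * M → GG.testBit j = true → good j = true)
    (h : outer ex GG G M M = true) : Solv good ex M := by
  intro a ha b hb hex
  have h1 := outer_spec ex GG G M M h a ha b hb hex
  obtain ⟨i, hi⟩ := Nat.exists_testBit_of_ne_zero h1
  rw [Nat.testBit_and, Nat.testBit_and, Nat.testBit_shiftRight, Nat.testBit_shiftRight,
    Bool.and_eq_true, Bool.and_eq_true] at hi
  obtain ⟨⟨h2, h3⟩, h4⟩ := hi
  have hiM : i < M := by
    by_contra hge
    push Not at hge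
    have h5 : G < 2 ^ i := lt_of_lt_of_le hG (Nat.pow_le_pow_right (by norm_num) hge)
    rw [Nat.testBit_lt_two_pow h5] at h2
    exact absurd h2 (by decide)
  refine ⟨i, hiM, hg i hiM h2, ?_, ?_⟩
  · rw [add_comm i a]
    exact hgg (a + i) (by omega) h3
  · rw [add_comm i b]
    exact hgg (b + i) (by omega) h4

/-- no exceptions -/
def noEx : ℕ → ℕ → Bool := fun _ _ => false

/-- the exceptional pairs modulo `3` -/
def ex3 : ℕ → ℕ → Bool := fun a b =>
  or (and (Nat.beq (a % 3) 1) (Nat.beq (b % 3) 2)) (and (Nat.beq (a % 3) 2) (Nat.beq (b % 3) 1))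

/-- the sign of a unit modulo `8`; `true` stands for `-1` -/
def sg8 (t3 t5 : Bool) (c : ℕ) : Bool :=
  if c = 1 then false else if c = 3 then t3 else if c = 5 then t5 else xor t3 t5

/-- the sign of a unit modulo `3` -/
def sg3 (t2 : Bool) (c : ℕ) : Bool := if c = 1 then false else t2

/-- `x = 2 ^ v * c` modulo `2 ^ (v + 3)` with `v ≤ 5`, `c` odd, and the local value is `1` -/
def good2 (t2 t3 t5 : Bool) (x : ℕ) : Bool :=
  (List.range 6).any fun v => [1, 3, 5, 7].any fun c =>
    and (Nat.beq (x % 2 ^ (v + 3)) (2 ^ v * c)) (not (xor (and t2 (Nat.beq (v % 2) 1)) (sg8 t3 t5 c)))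

/-- `x = 3 ^ v * c` modulo `3 ^ (v + 1)` with `v ≤ 2`, `c = 1, 2`, and the local value is `1` -/
def good3 (t3 t2 : Bool) (x : ℕ) : Bool :=
  (List.range 3).any fun v => [1, 2].any fun c =>
    and (Nat.beq (x % 3 ^ (v + 1)) (3 ^ v * c)) (not (xor (and t3 (Nat.beq (v % 2) 1)) (sg3 t2 c)))

theorem two_000 : Solv (good2 false false false) noEx 256 :=
  mask_lemma _ _ 0xfffffffffffffffefffffffffffffffefffffffffffffffefffffffffffffffefffffffffffffffefffffffffffffffefffffffffffffffefffffffffffffffe
    0xfffffffffffffffefffffffffffffffefffffffffffffffefffffffffffffffe 256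
    (by decide +kernel) (by decide +kernel) (by decide +kernel) (by decide +kernel)

theorem two_001 : Solv (good2 false false true) noEx 256 :=
  mask_lemma _ _ 0xa4e1a5e0b4e1b5e0a4f1a5e0b4f1b5e0a4e1a5f0b4e1b5e0a4f1a5f0b4f1b5e0a4e1a5e0b4e1b5e0a4f1a5e0b4f1b5e0a4e1a5f0b4e1b5e0a4f1a5f0b4f1b5e
    0xa4e1a5e0b4e1b5e0a4f1a5e0b4f1b5e0a4e1a5f0b4e1b5e0a4f1a5f0b4f1b5e 256
    (by decide +kernel) (by decide +kernel) (by decide +kernel) (by decide +kernel)

theorem two_010 : Solv (good2 false true false) noEx 256 :=
  mask_lemma _ _ 0x26362736263727362636273726372736263627362637273626362737263727362636273626372736263627372637273626362736263727362636273726372736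
    0x2636273626372736263627372637273626362736263727362636273726372736 256
    (by decide +kernel) (by decide +kernel) (by decide +kernel) (by decide +kernel)

theorem two_011 : Solv (good2 false true true) noEx 256 :=
  mask_lemma _ _ 0xd387c297d286c396d386c296d287c396d387c296d286c396d386c297d287c396d387c297d286c396d386c296d287c396d387c296d286c396d386c297d287c396
    0xd387c297d286c396d386c296d287c396d387c296d286c396d386c297d287c396 256
    (by decide +kernel) (by decide +kernel) (by decide +kernel) (by decide +kernel)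

theorem two_100 : Solv (good2 true false false) noEx 256 :=
  mask_lemma _ _ 0xbabbbabababbbabababbbabababbbabababbbabababbbabababbbabababbbabababbbabababbbabababbbabababbbabababbbabababbbabababbbabababbbaba
    0xbabbbabababbbabababbbabababbbabababbbabababbbabababbbabababbbaba 256
    (by decide +kernel) (by decide +kernel) (by decide +kernel) (by decide +kernel)

theorem two_101 : Solv (good2 true false true) noEx 256 :=
  mask_lemma _ _ 0x4f0a5f1b4e0a5e1a4f0b5f1b4e0b5e1a4f0a5f1a4e0a5e1a4f0b5f1a4e0b5e1a4f0a5f1b4e0a5e1a4f0b5f1b4e0b5e1a4f0a5f1a4e0a5e1a4f0b5f1a4e0b5e1a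
    0x4f0a5f1b4e0a5e1a4f0b5f1b4e0b5e1a4f0a5f1a4e0a5e1a4f0b5f1a4e0b5e1a 256
    (by decide +kernel) (by decide +kernel) (by decide +kernel) (by decide +kernel)

theorem two_110 : Solv (good2 true true false) noEx 256 :=
  mask_lemma _ _ 0x63726273637362726372627263736272637262736373627263726272637362726372627363736272637262726373627263726273637362726372627263736272
    0x6372627363736272637262726373627263726273637362726372627263736272 256
    (by decide +kernel) (by decide +kernel) (by decide +kernel) (by decide +kernel)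

theorem two_111 : Solv (good2 true true true) noEx 256 :=
  mask_lemma _ _ 0x96c387d297c286d296c287d397c386d296c387d397c286d296c287d297c386d296c387d297c286d296c287d397c386d296c387d397c286d296c287d297c386d2
    0x96c387d297c286d296c287d397c386d296c387d397c286d296c287d297c386d2 256
    (by decide +kernel) (by decide +kernel) (by decide +kernel) (by decide +kernel)

theorem three_00 : Solv (good3 false false) ex3 27 :=
  mask_lemma _ _ 0x3ffffff7fffffe 0x7fffffe 27
    (by decide +kernel) (by decide +kernel) (by decide +kernel) (by decide +kernel)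

theorem three_01 : Solv (good3 false true) ex3 27 :=
  mask_lemma _ _ 0x1349b4d269369a 0x269369a 27
    (by decide +kernel) (by decide +kernel) (by decide +kernel) (by decide +kernel)

theorem three_10 : Solv (good3 true false) ex3 27 :=
  mask_lemma _ _ 0x36fb7db6df6fb6 0x6df6fb6 27
    (by decide +kernel) (by decide +kernel) (by decide +kernel) (by decide +kernel)

theorem three_11 : Solv (good3 true true) ex3 27 :=
  mask_lemma _ _ 0x1a4d369349a6d2 0x349a6d2 27
    (by decide +kernel) (by decide +kernel) (by decide +kernel) (by decide +kernel)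

end Pool.Agent.Y815.LT
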